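import Pool.Agent.NGM.StmtsK

/-!
# Row GEN of NGM (helper68): good steps of the entropy
-/

set_option autoImplicit false

namespace Pool.Agent.NGM.H68

open scoped Pointwise Classical
open Filter Topology

/-- the entropy is at most the logarithm of the number of points -/
theorem ent_le {Q : Type*} (S : Finset Q) (w : Q → ℝ) (h0 : ∀ x, 0 ≤ w x)
    (h1 : ∑ x ∈ S, w x = 1) : ∑ x ∈ S, Real.negMulLog (w x) ≤ Real.log S.card := by
  have hS : S.Nonempty := by
    rw [Finset.nonempty_iff_ne_empty]
    rintro rfl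
    simp at h1
  have hc : (0 : ℝ) < S.card := by exact_mod_cast hS.card_pos
  have h2 := Real.concaveOn_negMulLog.le_map_sum (t := S) (w := fun _ => (S.card : ℝ)⁻¹) (p := w)
    (fun _ _ => by positivity) (by
      rw [Finset.sum_const, nsmul_eq_mul, mul_inv_cancel₀ hc.ne']) fun x _ => h0 x
  simp only [smul_eq_mul, ← Finset.mul_sum, h1, mul_one] at h2
  have h3 : Real.negMulLog (S.card : ℝ)⁻¹ = (S.card : ℝ)⁻¹ * Real.log S.card := by
    rw [Real.negMulLog, Real.log_inv]
    ring
  rw [h3] at h2
  exact le_of_mul_le_mul_left h2 (by positivity)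

/-- row GEN -/
theorem gen.{u} (hwk : WkStmt.{u}) : GenStmt.{u} := by
  intro Q _ K D hK hP
  obtain ⟨C, hC⟩ := hP
  by_contra hcon
  rw [not_frequently] at hcon
  obtain ⟨n0, hn0⟩ := eventually_atTop.1 hcon
  -- lower bound of the entropy
  have hlow : ∀ n, n0 ≤ n → ((D : ℝ) + 1) * (Real.log (n + 1) - Real.log (n0 + 1)) + en K n0 ≤
      en K n := by
    intro n hn
    induction n, hn using Nat.le_induction with
    | base => simp
    | succ n hn ih =>
      have h1 := hn0 n hn
      rw [not_le] at h1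
      have h2 : Real.log ((n : ℝ) + 1 + 1) ≤ Real.log (n + 1) + 1 / (n + 1) := by
        have hp : (0 : ℝ) < (n : ℝ) + 1 := by positivity
        have h3 := Real.log_le_sub_one_of_pos (x := ((n : ℝ) + 1 + 1) / (n + 1)) (by positivity)
        rw [Real.log_div (by positivity) (by positivity)] at h3
        have h4 : ((n : ℝ) + 1 + 1) / (n + 1) - 1 = 1 / (n + 1) := by
          field_simp
          ring
        linarith
      have h5 : ((D : ℝ) + 1) * (1 / (n + 1)) = (D + 1) / (n + 1) := by ring
      have h6 : ((D : ℝ) + 1) * Real.log ((n : ℝ) + 1 + 1) ≤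
          (D + 1) * (Real.log (n + 1) + 1 / (n + 1)) :=
        mul_le_mul_of_nonneg_left h2 (by positivity)
      push_cast
      nlinarith
  -- upper bound of the entropy
  have hup : ∀ n, en K n ≤ Real.log (gr K (2 * n)) := by
    intro n
    obtain ⟨w0, -, -, -, w1, -⟩ := hwk Q K hK (2 * n)
    exact ent_le (K ^ (2 * n)) (wk K (2 * n)) w0 w1
  -- the contradiction
  set c : ℝ := ((D : ℝ) + 1) * Real.log (n0 + 1) - en K n0 + Real.log C + D * Real.log 2 with hc
  have htend : Tendsto (fun n : ℕ => Real.log ((n : ℝ) + 1)) atTop atTop :=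
    Real.tendsto_log_atTop.comp (tendsto_atTop_add_const_right _ _ tendsto_natCast_atTop_atTop)
  obtain ⟨n1, hn1⟩ := eventually_atTop.1 (htend.eventually_gt_atTop c)
  obtain ⟨m, hm, hm'⟩ := (frequently_atTop.1 hC) (2 * (n0 + n1) + 2)
  set n := m / 2 with hn
  have hn2 : 2 * n ≤ m := by omega
  have hn3 : m ≤ 2 * n + 1 := by omega
  have hn4 : n0 ≤ n := by omega
  have hn5 : n1 ≤ n := by omega
  have hgr : gr K (2 * n) ≤ gr K m := Finset.card_le_card (Finset.pow_subset_pow_right hK.one hn2)
  have hgp : 1 ≤ gr K (2 * n) := by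
    refine Finset.card_pos.2 ⟨1, ?_⟩
    have := Finset.pow_subset_pow_right (s := K) hK.one (Nat.zero_le (2 * n))
    rw [pow_zero] at this
    exact this (Finset.mem_one.2 rfl)
  have hC1 : 1 ≤ C := by
    rcases Nat.eq_zero_or_pos C with h | h
    · rw [h, zero_mul] at hm'
      omega
    · exact h
  have h1 : (gr K (2 * n) : ℝ) ≤ C * (2 * (n + 1)) ^ D := by
    have h2 : gr K (2 * n) ≤ C * (2 * (n + 1)) ^ D :=
      (hgr.trans hm').trans (Nat.mul_le_mul_left _ (Nat.pow_le_pow_left (by omega) _))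
    exact_mod_cast h2
  have h2 : Real.log (gr K (2 * n)) ≤ Real.log C + D * (Real.log 2 + Real.log (n + 1)) := by
    have hgp' : (0 : ℝ) < gr K (2 * n) := by exact_mod_cast hgp
    have hC1' : (0 : ℝ) < C := by exact_mod_cast hC1
    refine (Real.log_le_log hgp' h1).trans (le_of_eq ?_)
    have hp : (0 : ℝ) < (n : ℝ) + 1 := by positivity
    rw [Real.log_mul hC1'.ne' (by positivity), Real.log_pow, Real.log_mul two_ne_zero hp.ne']
  have h3 := hlow n hn4
  have h4 := hup n
  have h5 := hn1 n hn5
  have h6 : Real.log ((n : ℝ) + 1) ≤ c := by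
    rw [hc]
    nlinarith
  linarith

end Pool.Agent.NGM.H68
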