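import Pool.Agent.NGM.StmtsK

/-!
# Row HAR of NGM (helper68): a harmonic function which is not zero
-/

set_option autoImplicit false

namespace Pool.Agent.NGM.H68

open scoped Pointwise Classical

theorem av_left {Q : Type*} [Group Q] (K : Finset Q) (f : Q → ℝ) (h x : Q) :
    av K (fun y => f (h * y)) x = av K f (h * x) := by
  simp only [av, mul_assoc]

theorem av_left2 {Q : Type*} [Group Q] (K : Finset Q) (f : Q → ℝ) (h x : Q) :
    av K (av K (fun y => f (h * y))) x = av K (av K f) (h * x) := by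
  have h1 : av K (fun y => f (h * y)) = fun y => av K f (h * y) := funext fun y => av_left K f h y
  rw [h1, av_left]

theorem card_ne {Q : Type*} [Group Q] {K : Finset Q} (hK : GenSet K) : (K.card : ℝ) ≠ 0 := by
  exact_mod_cast (Finset.card_pos.2 ⟨1, hK.one⟩).ne'

theorem av_const {Q : Type*} [Group Q] {K : Finset Q} (hK : GenSet K) (c : ℝ) :
    av K (fun _ => c) = fun _ => c := by
  funext x
  simp only [av, Finset.sum_const, nsmul_eq_mul]
  rw [inv_mul_cancel_left₀ (card_ne hK)]

/-- row HAR -/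
theorem har.{u} (hpsi : PsiStmt.{u}) : HarStmt.{u} := by
  intro Q _ K D hK hP hinf
  obtain ⟨ψ, hN, hψ⟩ := hpsi Q K D hK hP hinf
  -- there is a point where ψ does not vanish
  obtain ⟨h, hh⟩ : ∃ h, ψ h ≠ 0 := by
    by_contra hcon
    push Not at hcon
    have h0 : ψ = fun _ => (0 : ℝ) := funext hcon
    have h1 := hψ 1
    rw [h0, av_const hK, av_const hK] at h1
    norm_num at h1
  set f : Q → ℝ := fun g => (ψ g + ψ h - ψ (h⁻¹ * g)) / 2 with hf
  have hf' : f = (1 / 2 : ℝ) • (ψ + (fun _ => ψ h) + (-1 : ℝ) • fun y => ψ (h⁻¹ * y)) := by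
    funext g
    simp only [hf, Pi.smul_apply, Pi.add_apply, smul_eq_mul]
    ring
  refine ⟨⟨f, ?_, ?_, √(ψ h) * ∑ s ∈ K, √(ψ s), ?_⟩, ?_⟩
  · simp only [hf, mul_one, hN.one, hN.inv]
    ring
  · rw [hf']
    simp only [av_smul, av_add, av_const hK]
    congr 1
    funext g
    simp only [Pi.add_apply, Pi.smul_apply, smul_eq_mul, av_left2, hψ]
    ring
  · intro x s hs
    have h1 := hN.four x s h
    have e : f (x * s) - f x =
        -((ψ (h⁻¹ * x * s) - ψ (h⁻¹ * x) - ψ (x * s) + ψ x) / 2) := by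
      simp only [hf, mul_assoc]
      ring
    rw [e, abs_neg, abs_div, abs_two, div_le_iff₀ two_pos]
    refine h1.trans ?_
    have h2 : √(ψ s) ≤ ∑ s ∈ K, √(ψ s) :=
      Finset.single_le_sum (f := fun s => √(ψ s)) (fun i _ => Real.sqrt_nonneg _) hs
    have h3 := mul_le_mul_of_nonneg_left h2 (Real.sqrt_nonneg (ψ h))
    nlinarith
  · intro h0
    have h1 : f = 0 := congrArg Subtype.val h0
    have h2 : f h = 0 := by rw [h1]; rfl
    simp only [hf, inv_mul_cancel, hN.one] at h2
    apply hh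
    linarith

end Pool.Agent.NGM.H68
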